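import Pool.Agent.FHQ.StmtsU

/-!
# FHQ row DCH: the dichotomy for ring definable families in the prime fields
-/

set_option autoImplicit false

open scoped BigOperators

noncomputable section

namespace Pool.Agent.FHQ.H62

open Polynomial Filter

/-- **DCH**. -/
theorem dch (hSAT : SatStmt) (hXT : XtStmt) (hRDP : RdpStmt) (hPII : PiiStmt)
    (hBAS : BasStmt) : DchStmt := by
  classical
  intro n S hS
  by_contra hcon
  push Not at hcon
  choose p hp hp1 b hb1 hb2 using fun i : ℕ => hcon i i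
  haveI : ∀ i, Fact (p i).Prime := hp
  set U : Ultrafilter ℕ := hyperfilter ℕ with hU
  have hle : (U : Filter ℕ) ≤ atTop := by
    rw [hU]; exact Nat.hyperfilter_le_atTop
  have hUi : ∀ m : ℕ, ∀ᶠ i in (U : Filter ℕ), m ≤ i := fun m => hle (eventually_ge_atTop m)
  have hUp : ∀ m : ℕ, ∀ᶠ i in (U : Filter ℕ), m ≤ p i := fun m =>
    (hUi m).mono fun i hi => hi.trans (hp1 i)
  obtain ⟨-, -, -, hfix, -, -, -, hemb⟩ := hBAS p U hUp
  set A : ∀ i, Set (ZMod (p i)) := fun i => {x | S (p i) (Fin.cons x (b i))} with hA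
  have hne : ∀ i, Nonempty (ZMod (p i)) := fun i => ⟨0⟩
  -- the countable field
  obtain ⟨K, hBK, hK⟩ := hPII p U hUp
    (Set.range fun j : Fin n => emb p U (fun i => b i j)) (Set.countable_range _)
    (by rintro _ ⟨j, rfl⟩; exact (hfix _).2 ⟨_, rfl⟩)
  have hKc : Countable K := Set.countable_coe_iff.2 hK.cnt
  obtain ⟨e, he⟩ := exists_surjective_nat K
  let y : ℕ → ∀ i, ZMod (p i) := fun k =>
    if h : ∃ x, emb p U x = (e k : UF p U) then h.choose else fun _ => 0
  have hy : ∀ k, ∀ x, emb p U x = (e k : UF p U) → emb p U (y k) = emb p U x := by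
    intro k x hx
    have h : ∃ x, emb p U x = (e k : UF p U) := ⟨x, hx⟩
    have h1 : y k = h.choose := by
      change (if h : ∃ x, emb p U x = (e k : UF p U) then h.choose else fun _ => 0) = _
      rw [dif_pos h]
    rw [h1, h.choose_spec, hx]
  -- an element of `A` outside of the field
  let C : ℕ → ∀ i, ZMod (p i) → Prop := fun k i z =>
    match k with
    | 0 => z ∈ A i
    | k + 1 => z ≠ y k i
  have hC0 : ∀ i z, C 0 i z ↔ z ∈ A i := fun _ _ => Iff.rfl
  have hC1 : ∀ k i z, C (k + 1) i z ↔ z ≠ y k i := fun _ _ _ => Iff.rfl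
  obtain ⟨x, hx⟩ := hSAT U hUi (fun i => ZMod (p i)) C (by
    intro k
    refine (hUi k).mono fun i hi => ?_
    have h1 : ((Finset.range k).image fun j => y j i).card ≤ k := by
      calc _ ≤ (Finset.range k).card := Finset.card_image_le
        _ = k := Finset.card_range k
    have h2 : ((((Finset.range k).image fun j => y j i : Finset (ZMod (p i)))) :
        Set (ZMod (p i))).ncard < (A i).ncard := by
      rw [Set.ncard_coe_finset]
      exact (h1.trans hi).trans_lt (hb1 i)
    obtain ⟨z, hz1, hz2⟩ := Set.exists_mem_notMem_of_ncard_lt_ncard h2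
    refine ⟨z, fun j hj => ?_⟩
    rcases j with _ | j
    · exact hz1
    · rw [hC1]
      intro h
      apply hz2
      rw [Finset.mem_coe, Finset.mem_image]
      exact ⟨j, Finset.mem_range.2 (by omega), h.symm⟩)
  have hxA : ∀ᶠ i in (U : Filter ℕ), x i ∈ A i := hx 0
  have hxK : emb p U x ∉ K := by
    intro h
    obtain ⟨k, hk⟩ := he ⟨emb p U x, h⟩
    have h1 : emb p U (y k) = emb p U x := hy k x (by rw [hk])
    have h2 := (hemb _ _).1 h1
    have h3 : ∀ᶠ i in (U : Filter ℕ), x i ≠ y k i := hx (k + 1)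
    obtain ⟨i, h4, h5⟩ := (h2.and h3).exists
    exact h5 h4.symm
  obtain ⟨P, hP1, hP2, hP3⟩ := hXT p U hUi hUp K K (RingEquiv.refl K) hK x hxK
  have hPm : ∀ i (j k : ℕ), j ≤ k → P k i ⊆ P j i := by
    intro i j k hjk
    induction k, hjk using Nat.le_induction with
    | base => exact subset_rfl
    | succ k _ ih => exact (hP2 k i).trans ih
  have claim : ∃ r, ∀ᶠ i in (U : Filter ℕ), P r i ⊆ A i := by
    by_contra hno
    have hno' : ∀ r, ∀ᶠ i in (U : Filter ℕ), ¬ P r i ⊆ A i := fun r =>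
      Ultrafilter.eventually_not.2 fun h => hno ⟨r, h⟩
    obtain ⟨x', hx'⟩ := hSAT U hUi (fun i => ZMod (p i)) (fun r i z => z ∈ P r i ∧ z ∉ A i) (by
      intro k
      refine (hno' k).mono fun i hi => ?_
      obtain ⟨z, hz1, hz2⟩ := Set.not_subset.1 hi
      exact ⟨z, fun j hj => ⟨hPm i j k hj hz1, hz2⟩⟩)
    obtain ⟨K1', K2', θ', hPI', ⟨hKK, hext⟩, hxm, hθx⟩ :=
      hP3 x' fun r => (hx' r).mono fun i h => h.1
    have key := hRDP p U hUi hUp (n + 1) S hS K1' K2' θ' hPI'
      (Fin.cons x (fun j i => b i j)) (Fin.cons x' (fun j i => b i j)) (by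
        intro j
        refine Fin.cases ?_ (fun j => ?_) j
        · exact ⟨hxm, hθx⟩
        · have hj : emb p U (fun i => b i j) ∈ K := hBK ⟨j, rfl⟩
          exact ⟨hKK hj, hext ⟨_, hj⟩⟩)
    have e1 : ∀ (w : ∀ i, ZMod (p i)) (i : ℕ),
        (fun j => (Fin.cons w (fun j i => b i j) : Fin (n + 1) → ∀ i, ZMod (p i)) j i) =
          Fin.cons (w i) (b i) := by
      intro w i
      funext j
      refine Fin.cases ?_ (fun j => ?_) j <;> simp
    simp only [e1] at key
    have h1 : ∀ᶠ i in (U : Filter ℕ), S (p i) (Fin.cons (x' i) (b i)) := key.1 hxA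
    obtain ⟨i, h2, h3⟩ := (h1.and (hx' 0)).exists
    exact h3.2 h2
  obtain ⟨r, hr⟩ := claim
  obtain ⟨c, hc⟩ := hP1 r
  obtain ⟨i, ⟨h1, h2⟩, h3⟩ := ((hr.and hc).and (hUi c)).exists
  have h4 : (P r i).ncard ≤ (A i).ncard := Set.ncard_le_ncard h1 (Set.toFinite _)
  have h5 : p i < p i := by
    calc p i ≤ c * (P r i).ncard := h2
      _ ≤ i * (A i).ncard := Nat.mul_le_mul h3 h4
      _ < p i := hb2 i
  exact lt_irrefl _ h5

end Pool.Agent.FHQ.H62
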