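import Pool.Agent.FHQ.StmtsZ

/-!
# FHQ row ZLS: Laurent series over `F_p` have an angular component and Hensel's lemma
-/

set_option autoImplicit false

open scoped BigOperators

noncomputable section

namespace Pool.Agent.FHQ.H62

open Polynomial

/-! ### Hensel's lemma for power series -/

section hensel

variable {k : Type} [Field k]

theorem cc_eval (G : (PowerSeries k)[X]) (a : PowerSeries k) :
    PowerSeries.constantCoeff (G.eval a) =
      (G.map PowerSeries.constantCoeff).eval (PowerSeries.constantCoeff a) := by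
  rw [eval_map, eval₂_at_apply]

theorem step (F : (PowerSeries k)[X]) (z : k)
    (h1 : PowerSeries.constantCoeff (F.derivative.eval (PowerSeries.C z)) ≠ 0) (n : ℕ)
    (a : PowerSeries k) (ha : PowerSeries.constantCoeff a = z)
    (hF : (PowerSeries.X : PowerSeries k) ^ (n + 1) ∣ F.eval a) :
    ∃ a' : PowerSeries k, PowerSeries.constantCoeff a' = z ∧
      (PowerSeries.X : PowerSeries k) ^ (n + 2) ∣ F.eval a' ∧
      (PowerSeries.X : PowerSeries k) ^ (n + 1) ∣ a' - a := by
  obtain ⟨u, hu⟩ := hF
  set e := F.derivative.eval a with he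
  have hd : PowerSeries.constantCoeff e ≠ 0 := by
    rw [he, cc_eval, ha]
    rw [cc_eval, PowerSeries.constantCoeff_C] at h1
    exact h1
  set c : k := -(PowerSeries.constantCoeff u / PowerSeries.constantCoeff e) with hc
  refine ⟨a + PowerSeries.X ^ (n + 1) * PowerSeries.C c, ?_, ?_, ?_⟩
  · rw [map_add, map_mul, map_pow, PowerSeries.constantCoeff_X, ha]
    simp
  · obtain ⟨r, hr⟩ := binomExpansion F a (PowerSeries.X ^ (n + 1) * PowerSeries.C c)
    rw [hr, hu, ← he]
    have h2 : (PowerSeries.X : PowerSeries k) ∣ u + e * PowerSeries.C c := by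
      rw [PowerSeries.X_dvd_iff, map_add, map_mul, PowerSeries.constantCoeff_C, hc]
      field_simp
      ring
    obtain ⟨w, hw⟩ := h2
    refine ⟨w + r * PowerSeries.C c ^ 2 * PowerSeries.X ^ n, ?_⟩
    calc PowerSeries.X ^ (n + 1) * u + e * (PowerSeries.X ^ (n + 1) * PowerSeries.C c) +
          r * (PowerSeries.X ^ (n + 1) * PowerSeries.C c) ^ 2
        = PowerSeries.X ^ (n + 1) * (u + e * PowerSeries.C c) +
          r * (PowerSeries.X ^ (n + 1) * PowerSeries.C c) ^ 2 := by ring
      _ = _ := by rw [hw]; ring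
  · rw [add_sub_cancel_left]
    exact Dvd.intro _ rfl

theorem psHensel (F : (PowerSeries k)[X]) (z : k)
    (h0 : PowerSeries.constantCoeff (F.eval (PowerSeries.C z)) = 0)
    (h1 : PowerSeries.constantCoeff (F.derivative.eval (PowerSeries.C z)) ≠ 0) :
    ∃ a : PowerSeries k, PowerSeries.constantCoeff a = z ∧ F.eval a = 0 := by
  classical
  choose g g1 g2 g3 using step F z h1
  let s : (n : ℕ) → {a : PowerSeries k // PowerSeries.constantCoeff a = z ∧
      (PowerSeries.X : PowerSeries k) ^ (n + 1) ∣ F.eval a} := fun n =>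
    Nat.rec (motive := fun n => {a : PowerSeries k // PowerSeries.constantCoeff a = z ∧
      (PowerSeries.X : PowerSeries k) ^ (n + 1) ∣ F.eval a})
      ⟨PowerSeries.C z, PowerSeries.constantCoeff_C z, by
        rw [show Nat.zero + 1 = 1 from rfl, pow_one, PowerSeries.X_dvd_iff]; exact h0⟩
      (fun n a => ⟨g n a.1 a.2.1 a.2.2, g1 n a.1 a.2.1 a.2.2, g2 n a.1 a.2.1 a.2.2⟩) n
  have hs : ∀ n, (PowerSeries.X : PowerSeries k) ^ (n + 1) ∣ (s (n + 1)).1 - (s n).1 := fun n =>
    g3 n (s n).1 (s n).2.1 (s n).2.2
  have hc : ∀ m n : ℕ, m ≤ n → PowerSeries.coeff m (s n).1 = PowerSeries.coeff m (s m).1 := by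
    intro m n hmn
    induction n, hmn using Nat.le_induction with
    | base => rfl
    | succ n hn ih =>
      have h2 := (PowerSeries.X_pow_dvd_iff.1 (hs n)) m (by omega)
      rw [map_sub, sub_eq_zero] at h2
      rw [h2, ih]
  set A : PowerSeries k := PowerSeries.mk fun n => PowerSeries.coeff n (s n).1 with hA
  have hAs : ∀ n, (PowerSeries.X : PowerSeries k) ^ (n + 1) ∣ A - (s n).1 := by
    intro n
    rw [PowerSeries.X_pow_dvd_iff]
    intro m hm
    rw [map_sub, hA, PowerSeries.coeff_mk, hc m n (by omega), sub_self]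
  refine ⟨A, ?_, ?_⟩
  · rw [← PowerSeries.coeff_zero_eq_constantCoeff_apply, hA, PowerSeries.coeff_mk,
      PowerSeries.coeff_zero_eq_constantCoeff_apply]
    exact (s 0).2.1
  · ext m
    rw [map_zero]
    have h2 : (PowerSeries.X : PowerSeries k) ^ (m + 1) ∣ F.eval A := by
      have h3 := (hAs m).trans (sub_dvd_eval_sub A (s m).1 F)
      have h4 := dvd_add h3 (s m).2.2
      rwa [sub_add_cancel] at h4
    exact (PowerSeries.X_pow_dvd_iff.1 h2) m (by omega)

end hensel

/-! ### The order and the leading coefficient -/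

section order

variable {k : Type} [Field k]

theorem order_char {x : LaurentSeries k} {g : ℤ} (h1 : ∀ n < g, x.coeff n = 0)
    (h2 : x.coeff g ≠ 0) : x.order = g ∧ x.leadingCoeff = x.coeff g := by
  have hx : x ≠ 0 := by
    intro h; rw [h] at h2; simp at h2
  have h3 : x.order = g := by
    refine le_antisymm (HahnSeries.order_le_of_coeff_ne_zero h2) ?_
    by_contra hlt
    push Not at hlt
    exact (HahnSeries.coeff_order_eq_zero.not.2 hx) (h1 _ hlt)
  exact ⟨h3, by rw [HahnSeries.leadingCoeff_eq, h3]⟩

theorem coeff_order_ne {x : LaurentSeries k} (hx : x ≠ 0) : x.coeff x.order ≠ 0 :=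
  HahnSeries.coeff_order_eq_zero.not.2 hx

end order

variable (p : ℕ) [Fact p.Prime]

/-- the angular component of the Laurent series -/
def AL0 : AcF0 p (LaurentSeries (ZMod p)) where
  v := HahnSeries.order
  ac := HahnSeries.leadingCoeff
  v_zero := HahnSeries.order_zero
  ac_zero := fun x => HahnSeries.leadingCoeff_eq_zero
  v_mul := fun x y hx hy => HahnSeries.order_mul hx hy
  ac_mul := fun x y => HahnSeries.leadingCoeff_mul x y
  add_lt := by
    intro x y hx hy h
    have h1 : ∀ n < x.order, (x + y).coeff n = 0 := by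
      intro n hn
      rw [HahnSeries.coeff_add, HahnSeries.coeff_eq_zero_of_lt_order hn,
        HahnSeries.coeff_eq_zero_of_lt_order (hn.trans h), add_zero]
    have h2 : (x + y).coeff x.order = x.coeff x.order := by
      rw [HahnSeries.coeff_add, HahnSeries.coeff_eq_zero_of_lt_order h, add_zero]
    obtain ⟨h3, h4⟩ := order_char h1 (by rw [h2]; exact coeff_order_ne hx)
    exact ⟨h3, by rw [h4, h2, HahnSeries.leadingCoeff_eq]⟩
  add_eq := by
    intro x y hx hy h hne
    have h1 : ∀ n < x.order, (x + y).coeff n = 0 := by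
      intro n hn
      rw [HahnSeries.coeff_add, HahnSeries.coeff_eq_zero_of_lt_order hn,
        HahnSeries.coeff_eq_zero_of_lt_order (h ▸ hn), add_zero]
    have h2 : (x + y).coeff x.order = x.leadingCoeff + y.leadingCoeff := by
      rw [HahnSeries.coeff_add, HahnSeries.leadingCoeff_eq, HahnSeries.leadingCoeff_eq, h]
    obtain ⟨h3, h4⟩ := order_char h1 (by rw [h2]; exact hne)
    exact ⟨h3, by rw [h4, h2]⟩
  add_gt := by
    intro x y hx hy h h0
    by_cases hxy : x + y = 0
    · exact Or.inl hxy
    · right
      have h1 : ∀ n ≤ x.order, (x + y).coeff n = 0 := by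
        intro n hn
        rcases hn.lt_or_eq with hn | hn
        · rw [HahnSeries.coeff_add, HahnSeries.coeff_eq_zero_of_lt_order hn,
            HahnSeries.coeff_eq_zero_of_lt_order (h ▸ hn), add_zero]
        · rw [hn, HahnSeries.coeff_add, ← h0, HahnSeries.leadingCoeff_eq,
            HahnSeries.leadingCoeff_eq, h]
      by_contra hle
      push Not at hle
      exact coeff_order_ne hxy (h1 _ hle)
  surj := by
    intro z g hz
    exact ⟨HahnSeries.single g z, HahnSeries.single_ne_zero hz, HahnSeries.leadingCoeff_of_single,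
      HahnSeries.order_single hz⟩

theorem int_iff (x : LaurentSeries (ZMod p)) : (AL0 p).Int x ↔ ∀ n < 0, x.coeff n = 0 := by
  constructor
  · rintro (h | h) n hn
    · rw [h]; rfl
    · exact HahnSeries.coeff_eq_zero_of_lt_order (lt_of_lt_of_le hn h)
  · intro h
    by_cases hx : x = 0
    · exact Or.inl hx
    · right
      by_contra hlt
      push Not at hlt
      exact coeff_order_ne hx (h _ hlt)

theorem res_eq (x : LaurentSeries (ZMod p)) (hx : (AL0 p).Int x) : (AL0 p).res x = x.coeff 0 := by
  unfold AcF0.res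
  by_cases h : x ≠ 0 ∧ (AL0 p).v x = 0
  · rw [if_pos h]
    have h2 : x.order = 0 := h.2
    change x.leadingCoeff = _
    rw [HahnSeries.leadingCoeff_eq, h2]
  · rw [if_neg h]
    by_cases h0 : x = 0
    · rw [h0]; rfl
    · have h1 : (AL0 p).v x ≠ 0 := fun h' => h ⟨h0, h'⟩
      rcases hx with hx | hx
      · exact absurd hx h0
      · have h2 : 0 < x.order := lt_of_le_of_ne hx (Ne.symm h1)
        exact (HahnSeries.coeff_eq_zero_of_lt_order h2).symm

theorem int_range (x : LaurentSeries (ZMod p)) (hx : (AL0 p).Int x) :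
    x ∈ Set.range (HahnSeries.ofPowerSeries ℤ (ZMod p)) := by
  rw [int_iff] at hx
  refine ⟨PowerSeries.mk fun n => x.coeff n, ?_⟩
  ext n
  rw [PowerSeries.coeff_coe]
  by_cases hn : n < 0
  · rw [if_pos hn, hx n hn]
  · rw [if_neg hn, PowerSeries.coeff_mk]
    congr 1
    omega

theorem int_coe (f : PowerSeries (ZMod p)) :
    (AL0 p).Int (HahnSeries.ofPowerSeries ℤ (ZMod p) f) := by
  rw [int_iff]
  intro n hn
  rw [PowerSeries.coeff_coe, if_pos hn]

theorem res_coe (f : PowerSeries (ZMod p)) :
    (AL0 p).res (HahnSeries.ofPowerSeries ℤ (ZMod p) f) = PowerSeries.constantCoeff f := by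
  rw [res_eq p _ (int_coe p f), PowerSeries.coeff_coe]
  simp

/-- Laurent series with Hensel's lemma -/
def AL : AcF p (LaurentSeries (ZMod p)) :=
  { AL0 p with
    hensel := by
      intro P z hint h0 h1
      have hl : P ∈ lifts (HahnSeries.ofPowerSeries ℤ (ZMod p)) := by
        rw [lifts_iff_coeff_lifts]
        exact fun i => int_range p _ (hint i)
      rw [lifts_iff_set_range] at hl
      obtain ⟨F, rfl⟩ := hl
      have hred : (AL0 p).red (F.map (HahnSeries.ofPowerSeries ℤ (ZMod p))) =
          F.map PowerSeries.constantCoeff := by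
        ext i
        unfold AcF0.red
        rw [finsetSum_coeff]
        simp only [coeff_monomial]
        rw [Finset.sum_ite_eq' _ i, coeff_map]
        by_cases hi : i ∈ (F.map (HahnSeries.ofPowerSeries ℤ (ZMod p))).support
        · rw [if_pos hi, coeff_map, res_coe]
        · rw [if_neg hi]
          rw [mem_support_iff, not_not, coeff_map] at hi
          have h2 := res_coe p (F.coeff i)
          rw [hi] at h2
          rw [coeff_map, ← h2]
          unfold AcF0.res
          rw [if_neg (fun h => h.1 rfl)]
      change ((AL0 p).red (F.map (HahnSeries.ofPowerSeries ℤ (ZMod p)))).eval z = 0 at h0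
      change (derivative ((AL0 p).red
        (F.map (HahnSeries.ofPowerSeries ℤ (ZMod p))))).eval z ≠ 0 at h1
      rw [hred] at h0 h1
      rw [derivative_map] at h1
      obtain ⟨a, ha1, ha2⟩ := psHensel F z (by rw [cc_eval, PowerSeries.constantCoeff_C]; exact h0)
        (by rw [cc_eval, PowerSeries.constantCoeff_C]; exact h1)
      refine ⟨HahnSeries.ofPowerSeries ℤ (ZMod p) a, int_coe p a, ?_, ?_⟩
      · exact (res_coe p a).trans ha1
      · rw [eval_map, eval₂_at_apply, ha2, map_zero] }

/-- **ZLS**. -/
theorem zls : ZlsStmt := by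
  intro p _
  refine ⟨AL p, fun x y => ?_⟩
  constructor
  · rintro ⟨hx, hy, hac, hv⟩
    refine ⟨hx, hy, ?_⟩
    change x.leadingCoeff = y.leadingCoeff at hac
    change x.order = y.order at hv
    change x / y - 1 = 0 ∨ 0 < HahnSeries.order (x / y - 1)
    by_cases he : x / y - 1 = 0
    · exact Or.inl he
    · right
      have hxy : x + -y = y * (x / y - 1) := by
        field_simp
        ring
      have hne : x + -y ≠ 0 := by
        rw [hxy]; exact mul_ne_zero hy he
      have h1 := (AL0 p).add_gt x (-y) hx (neg_ne_zero.2 hy)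
        (by change x.order = (-y).order; rw [HahnSeries.order_neg, hv])
        (by change x.leadingCoeff + (-y).leadingCoeff = 0
            rw [HahnSeries.leadingCoeff_neg, hac, add_neg_cancel])
      rcases h1 with h1 | h1
      · exact absurd h1 hne
      · have h2 : x.order < (x + -y).order := h1
        rw [hxy, HahnSeries.order_mul hy he, hv] at h2
        linarith
  · rintro ⟨hx, hy, he⟩
    have he' : x / y - 1 = 0 ∨ 0 < HahnSeries.order (x / y - 1) := he
    refine ⟨hx, hy, ?_⟩
    rcases he' with he' | he'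
    · have hxy : x = y := by
        have : x / y = 1 := sub_eq_zero.1 he'
        rwa [div_eq_one_iff_eq hy] at this
      rw [hxy]
      exact ⟨rfl, rfl⟩
    · by_cases he0 : x / y - 1 = 0
      · have hxy : x = y := by
          have : x / y = 1 := sub_eq_zero.1 he0
          rwa [div_eq_one_iff_eq hy] at this
        rw [hxy]
        exact ⟨rfl, rfl⟩
      · have hxy : x = y + y * (x / y - 1) := by
          field_simp
          ring
        have h1 := (AL0 p).add_lt y (y * (x / y - 1)) hy (mul_ne_zero hy he0)
          (by change y.order < (y * (x / y - 1)).order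
              rw [HahnSeries.order_mul hy he0]; linarith)
        rw [← hxy] at h1
        exact ⟨h1.2, h1.1⟩

end Pool.Agent.FHQ.H62
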